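import Mathlib

/-!
# The unitary polarity graph: definitions and the statements of the parts

`MP_8d5faa_co`, frozen statement S10062 (the disproof). `F` is a field with `q ^ 2` elements with the
involution `star x = x ^ q`, and `hm` is the Hermitian form on `F ^ 3`.
-/

set_option autoImplicit false

namespace Pool.Agent.L5helper63.UP

open Finset

/-- the Hermitian form -/
def hm {F : Type} [Field F] [StarRing F] (v w : Fin 3 → F) : F := ∑ i, v i * star (w i)

/-- the setting -/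
structure Setup (F : Type) [Field F] [Fintype F] [StarRing F] (q : ℕ) : Prop where
  hstar : ∀ x : F, star x = x ^ q
  hcard : Fintype.card F = q ^ 2
  h2 : (2 : F) ≠ 0
  hq : 2 ≤ q

/-- the unit vectors -/
def uv (F : Type) [Field F] [Fintype F] [DecidableEq F] [StarRing F] : Finset (Fin 3 → F) :=
  univ.filter fun v => hm v v = 1

/-- the number of ordered pairs of orthogonal members of `A` -/
def ep {F : Type} [Field F] [Fintype F] [DecidableEq F] [StarRing F] (A : Finset (Fin 3 → F)) : ℕ :=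
  ((A ×ˢ A).filter fun p => hm p.1 p.2 = 0).card

/-- NORM (1): the fibres of the norm. -/
def St_NORM1 : Prop := ∀ (F : Type) [Field F] [Fintype F] [DecidableEq F] [StarRing F] (q : ℕ),
  Setup F q →
    (∀ t : F, (univ.filter fun l : F => l * star l = t).card ≤ q + 1) ∧
    (∀ t : F, t ≠ 0 → star t = t → (univ.filter fun l : F => l * star l = t).card = q + 1)

/-- NORM (2): the vectors of given norm. -/
def St_NORM2 : Prop := ∀ (F : Type) [Field F] [Fintype F] [DecidableEq F] [StarRing F] (q : ℕ),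
  Setup F q → ∀ t : F, (univ.filter fun v : Fin 3 → F => hm v v = t).card ≤ q ^ 4 * (q + 1)

/-- MIX: the expander mixing lemma (second moment of `w ↦ #{v ∈ A : hm v w = 0}` over all `w`). -/
def St_MIX : Prop := ∀ (F : Type) [Field F] [Fintype F] [DecidableEq F] [StarRing F] (q : ℕ),
  Setup F q → ∀ A : Finset (Fin 3 → F), (∀ v ∈ A, hm v v = 1) →
    |(ep A : ℝ) - (A.card : ℝ) ^ 2 / (q : ℝ) ^ 2| ≤ (A.card : ℝ) * ((q : ℝ) ^ 2 * Real.sqrt (q + 1))

/-- the unit vectors on the members of a set of points -/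
def vecs {F : Type} [Field F] [Fintype F] [DecidableEq F] [StarRing F]
    [DecidableEq (Projectivization F (Fin 3 → F))]
    (S : Finset (Projectivization F (Fin 3 → F))) : Finset (Fin 3 → F) :=
  univ.filter fun v => hm v v = 1 ∧ ∃ x ∈ S, ∃ h : v ≠ 0, Projectivization.mk F v h = x

/-- PTS: unit vectors on the points of `S`, isotropic points of `S`; triangles. -/
def St_PTS : Prop := ∀ (F : Type) [Field F] [Fintype F] [DecidableEq F] [StarRing F] (q : ℕ)
  [DecidableEq (Projectivization F (Fin 3 → F))],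
  Setup F q → ∀ S : Finset (Projectivization F (Fin 3 → F)),
    ((q : ℝ) + 1) * ((S.card : ℝ) - (q : ℝ) ^ 4 * (q + 1) / ((q : ℝ) ^ 2 - 1)) ≤
      ((vecs S).card : ℝ) ∧
    ((∀ x ∈ S, ∀ y ∈ S, ∀ z ∈ S, x ≠ y → y ≠ z → x ≠ z →
          ¬ ((∑ i : Fin 3, x.rep i * (y.rep i) ^ q) = 0 ∧
             (∑ i : Fin 3, y.rep i * (z.rep i) ^ q) = 0 ∧
             (∑ i : Fin 3, x.rep i * (z.rep i) ^ q) = 0)) →
      ∀ u ∈ vecs S, ∀ v ∈ vecs S, ∀ w ∈ vecs S, hm u v = 0 → hm v w = 0 → hm u w = 0 → False)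

/-- MAIN: a triangle-free set of unit vectors (from the unitary group and the configuration of 21
frames). -/
def St_MAIN : Prop := ∀ (F : Type) [Field F] [Fintype F] [DecidableEq F] [StarRing F] (q : ℕ),
  Setup F q → CharP F 5 → (∃ s : F, s ^ 2 = 2 ∧ star s = -s) →
  ∀ A : Finset (Fin 3 → F), (∀ v ∈ A, hm v v = 1) →
    (∀ u ∈ A, ∀ v ∈ A, ∀ w ∈ A, hm u v = 0 → hm v w = 0 → hm u w = 0 → False) →
    126 * (ep A * (uv F).card) ≤ 62 * (A.card * ep (uv F))

/-- FIELD: the fields `GaloisField 5 (2 * r)`, `r` odd, with `q = 5 ^ r`. -/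
def St_FIELD : Prop := ∀ r : ℕ, Odd r →
  ∃ (F : Type) (_ : Field F) (_ : Fintype F) (_ : DecidableEq F) (_ : StarRing F),
    Setup F (5 ^ r) ∧ CharP F 5 ∧ (∃ s : F, s ^ 2 = 2 ∧ star s = -s)

/-- FINAL -/
def St_FINAL : Prop := St_NORM2 → St_MIX → St_PTS → St_MAIN → St_FIELD →
    ¬ (∀ ε : ℝ, 0 < ε → ∃ N : ℕ, ∀ (q : ℕ) (F : Type) [Field F] [Fintype F],
      Odd q → N ≤ q → Fintype.card F = q ^ 2 →
      ∃ S : Finset (Projectivization F (Fin 3 → F)),
        (1 / 2 - ε) * (q : ℝ) ^ 4 ≤ (S.card : ℝ) ∧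
        ∀ x ∈ S, ∀ y ∈ S, ∀ z ∈ S, x ≠ y → y ≠ z → x ≠ z →
          ¬ ((∑ i : Fin 3, x.rep i * (y.rep i) ^ q) = 0 ∧
             (∑ i : Fin 3, y.rep i * (z.rep i) ^ q) = 0 ∧
             (∑ i : Fin 3, x.rep i * (z.rep i) ^ q) = 0))

end Pool.Agent.L5helper63.UP
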