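import Pool.Agent.L5helper63.UP.Defs

/-!
# The configuration of 21 orthogonal frames in the unitary plane over the field with 25 elements

The pair `(a, b)` stands for `a + b s`, `s ^ 2 = 2`. Each of the 31 points is on two frames, with the
exception of the last one, which is on three frames.
-/

set_option autoImplicit false

namespace Pool.Agent.L5helper63.UP

open Finset

/-- unit vectors on the 31 points -/
def cv : Fin 31 → Fin 3 → ZMod 5 × ZMod 5 :=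
  ![![(1, 0), (0, 0), (0, 0)],
    ![(0, 1), (0, 0), (0, 1)],
    ![(0, 1), (0, 0), (0, 4)],
    ![(0, 1), (2, 0), (4, 1)],
    ![(0, 1), (2, 0), (1, 4)],
    ![(2, 0), (0, 4), (2, 0)],
    ![(2, 0), (0, 4), (3, 0)],
    ![(2, 0), (0, 1), (2, 0)],
    ![(2, 0), (0, 1), (3, 0)],
    ![(0, 1), (3, 0), (4, 1)],
    ![(0, 1), (3, 0), (1, 4)],
    ![(2, 0), (2, 1), (0, 0)],
    ![(2, 4), (1, 0), (4, 3)],
    ![(2, 4), (1, 0), (1, 2)],
    ![(2, 4), (2, 0), (0, 0)],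
    ![(1, 0), (2, 1), (0, 1)],
    ![(1, 0), (2, 1), (0, 4)],
    ![(2, 2), (1, 0), (3, 0)],
    ![(2, 2), (1, 0), (2, 0)],
    ![(2, 2), (4, 0), (3, 0)],
    ![(2, 2), (4, 0), (2, 0)],
    ![(2, 4), (3, 0), (0, 0)],
    ![(1, 0), (3, 4), (0, 1)],
    ![(1, 0), (3, 4), (0, 4)],
    ![(2, 0), (3, 4), (0, 0)],
    ![(2, 4), (4, 0), (4, 3)],
    ![(2, 4), (4, 0), (1, 2)],
    ![(0, 0), (1, 0), (0, 0)],
    ![(0, 0), (0, 1), (1, 2)],
    ![(0, 0), (0, 1), (4, 3)],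
    ![(0, 0), (0, 0), (1, 0)]]

/-- the 21 frames -/
def tr : List (Fin 31 × Fin 31 × Fin 31) :=
  [(0, 27, 30), (11, 21, 30), (14, 24, 30), (0, 28, 29), (11, 22, 23), (15, 16, 24),
    (1, 2, 27), (12, 13, 21), (14, 25, 26), (1, 6, 8), (2, 5, 7), (3, 17, 26),
    (4, 18, 25), (9, 13, 19), (10, 12, 20), (3, 10, 29), (4, 9, 28), (5, 17, 22),
    (6, 18, 23), (7, 15, 19), (8, 16, 20)]

/-- `(a + b s) (c - d s)` -/
def mp (x y : ZMod 5 × ZMod 5) : ZMod 5 × ZMod 5 :=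
  (x.1 * y.1 - 2 * (x.2 * y.2), x.2 * y.1 - x.1 * y.2)

/-- the Hermitian form -/
def hp (v w : Fin 3 → ZMod 5 × ZMod 5) : ZMod 5 × ZMod 5 :=
  mp (v 0) (w 0) + mp (v 1) (w 1) + mp (v 2) (w 2)

theorem cv_unit : ∀ k : Fin 31, hp (cv k) (cv k) = (1, 0) := by decide

theorem tr_orth : ∀ t ∈ tr, hp (cv t.1) (cv t.2.1) = (0, 0) ∧ hp (cv t.2.1) (cv t.2.2) = (0, 0) ∧
    hp (cv t.1) (cv t.2.2) = (0, 0) := by
  intro t ht
  simp only [tr, List.mem_cons, List.not_mem_nil, or_false] at ht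
  rcases ht with rfl | rfl | rfl | rfl | rfl | rfl | rfl | rfl | rfl | rfl | rfl | rfl | rfl | rfl | rfl | rfl | rfl | rfl | rfl | rfl | rfl <;>
    decide

/-- the frames add up to the last point -/
theorem tr_sum (g : Fin 31 → ZMod 2) :
    (tr.map fun t => g t.1 + g t.2.1 + g t.2.2).sum = g 30 := by
  have h2 : (2 : ZMod 2) = 0 := rfl
  simp only [tr, List.map_cons, List.map_nil, List.sum_cons, List.sum_nil]
  linear_combination (g 0 + g 1 + g 2 + g 3 + g 4 + g 5 + g 6 + g 7 + g 8 + g 9 + g 10 + g 11 +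
    g 12 + g 13 + g 14 + g 15 + g 16 + g 17 + g 18 + g 19 + g 20 + g 21 + g 22 + g 23 + g 24 +
    g 25 + g 26 + g 27 + g 28 + g 29 + g 30) * h2

section field

variable {F : Type} [Field F] [StarRing F] [CharP F 5]

/-- the element of `F` -/
noncomputable def ev (s : F) (x : ZMod 5 × ZMod 5) : F :=
  ZMod.castHom (dvd_refl 5) F x.1 + ZMod.castHom (dvd_refl 5) F x.2 * s

theorem star_cast (a : ZMod 5) : star (ZMod.castHom (dvd_refl 5) F a) =
    ZMod.castHom (dvd_refl 5) F a := by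
  have h : a = ((a.val : ℕ) : ZMod 5) := by simp
  rw [h, map_natCast, star_natCast]

theorem ev_mp {s : F} (hs : s ^ 2 = 2) (hs' : star s = -s) (x y : ZMod 5 × ZMod 5) :
    ev s x * star (ev s y) = ev s (mp x y) := by
  unfold ev mp
  simp only [star_add, star_mul', star_cast, hs', map_sub, map_mul]
  have h2 : ZMod.castHom (dvd_refl 5) F 2 = 2 := map_ofNat _ 2
  rw [h2]
  linear_combination (-(ZMod.castHom (dvd_refl 5) F x.2) * ZMod.castHom (dvd_refl 5) F y.2) * hs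

theorem ev_add (s : F) (x y : ZMod 5 × ZMod 5) : ev s (x + y) = ev s x + ev s y := by
  unfold ev
  simp only [Prod.fst_add, Prod.snd_add, map_add]
  ring

theorem ev_hp {s : F} (hs : s ^ 2 = 2) (hs' : star s = -s) (v w : Fin 3 → ZMod 5 × ZMod 5) :
    hm (fun i => ev s (v i)) (fun i => ev s (w i)) = ev s (hp v w) := by
  unfold hm hp
  rw [Fin.sum_univ_three, ev_add, ev_add, ev_mp hs hs', ev_mp hs hs', ev_mp hs hs']

/-- the configuration in `F ^ 3` -/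
theorem exists_config (h : ∃ s : F, s ^ 2 = 2 ∧ star s = -s) :
    ∃ c : Fin 31 → (Fin 3 → F), (∀ k, hm (c k) (c k) = 1) ∧
      ∀ t ∈ tr, hm (c t.1) (c t.2.1) = 0 ∧ hm (c t.2.1) (c t.2.2) = 0 ∧ hm (c t.1) (c t.2.2) = 0 := by
  obtain ⟨s, hs, hs'⟩ := h
  refine ⟨fun k i => ev s (cv k i), fun k => ?_, fun t ht => ?_⟩
  · rw [ev_hp hs hs', cv_unit]
    simp [ev]
  · obtain ⟨h1, h2, h3⟩ := tr_orth t ht
    rw [ev_hp hs hs', ev_hp hs hs', ev_hp hs hs', h1, h2, h3]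
    simp [ev]

end field

end Pool.Agent.L5helper63.UP
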