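import Pool.Agent.L5helper63.UP.Cert

/-!
# The unitary group: fibres over unit vectors and over orthogonal pairs
-/

set_option autoImplicit false
set_option linter.all false

namespace Pool.Agent.L5helper63.UP

open Finset Matrix

section

variable {F : Type} [Field F] [StarRing F]

theorem hm_symm (v w : Fin 3 → F) : hm w v = star (hm v w) := by
  unfold hm
  rw [star_sum]
  refine Finset.sum_congr rfl fun i _ => ?_
  rw [star_mul', star_star, mul_comm]

theorem hm_smul_left (a : F) (v w : Fin 3 → F) : hm (a • v) w = a * hm v w := by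
  unfold hm
  rw [Finset.mul_sum]
  refine Finset.sum_congr rfl fun i _ => ?_
  rw [Pi.smul_apply, smul_eq_mul, mul_assoc]

theorem hm_smul_right (a : F) (v w : Fin 3 → F) : hm v (a • w) = star a * hm v w := by
  rw [hm_symm, hm_smul_left, star_mul', ← hm_symm]

/-- the columns -/
def col (M : Matrix (Fin 3) (Fin 3) F) (j : Fin 3) : Fin 3 → F := fun i => M i j

/-- matrix with given columns -/
def ofCols (u : Fin 3 → (Fin 3 → F)) : Matrix (Fin 3) (Fin 3) F := fun i j => u j i

theorem gram_apply (M : Matrix (Fin 3) (Fin 3) F) (j k : Fin 3) :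
    (star M * M) k j = hm (col M j) (col M k) := by
  rw [Matrix.mul_apply]
  unfold hm col
  refine Finset.sum_congr rfl fun i _ => ?_
  rw [Matrix.star_apply, mul_comm]

theorem mem_unitary_iff (M : Matrix (Fin 3) (Fin 3) F) :
    M ∈ Matrix.unitaryGroup (Fin 3) F ↔
      ∀ j k, hm (col M j) (col M k) = if j = k then 1 else 0 := by
  rw [Matrix.mem_unitaryGroup_iff']
  constructor
  · intro h j k
    rw [← gram_apply, h, Matrix.one_apply]
    simp only [eq_comm]
  · intro h
    ext k j
    rw [gram_apply, h, Matrix.one_apply]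
    simp only [eq_comm]

theorem gram (M : Matrix.unitaryGroup (Fin 3) F) (j k : Fin 3) :
    hm (col M.1 j) (col M.1 k) = if j = k then 1 else 0 :=
  (mem_unitary_iff M.1).1 M.2 j k

theorem hm_mulVec (M : Matrix.unitaryGroup (Fin 3) F) (v w : Fin 3 → F) :
    hm (M.1 *ᵥ v) (M.1 *ᵥ w) = hm v w := by
  have h := (Matrix.mem_unitaryGroup_iff'.1 M.2)
  have e : ∀ a b : Fin 3 → F, hm a b = a ⬝ᵥ star b := fun a b => rfl
  have h' : (M.1)ᴴ * M.1 = 1 := h
  rw [e, e, Matrix.star_mulVec, dotProduct_comm, ← Matrix.dotProduct_mulVec,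
    Matrix.mulVec_mulVec, h', Matrix.one_mulVec, dotProduct_comm]

theorem col_mul (M C : Matrix (Fin 3) (Fin 3) F) (j : Fin 3) : col (M * C) j = M *ᵥ (col C j) := by
  funext i
  rfl

theorem mulVec_inj (M : Matrix.unitaryGroup (Fin 3) F) {v w : Fin 3 → F}
    (h : M.1 *ᵥ v = M.1 *ᵥ w) : v = w := by
  have h1 : (M.1)ᴴ * M.1 = 1 := (Matrix.mem_unitaryGroup_iff'.1 M.2)
  have h2 := congrArg (fun x => (M.1)ᴴ *ᵥ x) h
  simp only [Matrix.mulVec_mulVec, h1, Matrix.one_mulVec] at h2
  exact h2

/-- the third vector -/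
def cr (v w : Fin 3 → F) : Fin 3 → F :=
  ![star (v 1 * w 2 - v 2 * w 1), star (v 2 * w 0 - v 0 * w 2), star (v 0 * w 1 - v 1 * w 0)]

theorem cr_left (v w : Fin 3 → F) : hm (cr v w) v = 0 := by
  have h : hm v (cr v w) = 0 := by
    unfold hm cr
    rw [Fin.sum_univ_three]
    simp only [Matrix.cons_val_zero, Matrix.cons_val_one, Matrix.cons_val_two, Matrix.head_cons,
      Matrix.tail_cons, star_star, Matrix.cons_val]
    ring
  rw [hm_symm, h, star_zero]

theorem cr_right (v w : Fin 3 → F) : hm (cr v w) w = 0 := by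
  have h : hm w (cr v w) = 0 := by
    unfold hm cr
    rw [Fin.sum_univ_three]
    simp only [Matrix.cons_val_zero, Matrix.cons_val_one, Matrix.cons_val_two, Matrix.head_cons,
      Matrix.tail_cons, star_star, Matrix.cons_val]
    ring
  rw [hm_symm, h, star_zero]

theorem cr_norm (v w : Fin 3 → F) : hm (cr v w) (cr v w) = hm v v * hm w w - hm v w * hm w v := by
  unfold hm cr
  simp only [Fin.sum_univ_three]
  simp only [Matrix.cons_val_zero, Matrix.cons_val_one, Matrix.cons_val_two, Matrix.head_cons,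
    Matrix.tail_cons, star_star, Matrix.cons_val, star_sub, star_mul']
  ring

theorem exists_frame {v w z : Fin 3 → F} (hv : hm v v = 1) (hw : hm w w = 1) (hz : hm z z = 1)
    (hvw : hm v w = 0) (hwz : hm w z = 0) (hvz : hm v z = 0) :
    ∃ M : Matrix.unitaryGroup (Fin 3) F, col M.1 0 = v ∧ col M.1 1 = w ∧ col M.1 2 = z := by
  have hwv : hm w v = 0 := by rw [hm_symm, hvw, star_zero]
  have hzw : hm z w = 0 := by rw [hm_symm, hwz, star_zero]
  have hzv : hm z v = 0 := by rw [hm_symm, hvz, star_zero]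
  refine ⟨⟨ofCols ![v, w, z], (mem_unitary_iff _).2 ?_⟩, rfl, rfl, rfl⟩
  intro j k
  have hc : ∀ j, col (ofCols ![v, w, z]) j = ![v, w, z] j := fun j => rfl
  rw [hc, hc]
  fin_cases j <;> fin_cases k <;> simp [hv, hw, hz, hvw, hwz, hvz, hwv, hzw, hzv]

theorem exists_frame2 {v w : Fin 3 → F} (hv : hm v v = 1) (hw : hm w w = 1) (hvw : hm v w = 0) :
    ∃ M : Matrix.unitaryGroup (Fin 3) F, col M.1 0 = v ∧ col M.1 1 = w := by
  have h1 : hm w (cr v w) = 0 := by rw [hm_symm, cr_right, star_zero]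
  have h2 : hm v (cr v w) = 0 := by rw [hm_symm, cr_left, star_zero]
  have h3 : hm (cr v w) (cr v w) = 1 := by rw [cr_norm, hv, hw, hvw]; ring
  obtain ⟨M, h4, h5, -⟩ := exists_frame hv hw h3 hvw h1 h2
  exact ⟨M, h4, h5⟩

/-- a vector orthogonal to a unit vector, not isotropic -/
theorem exists_perp (h2 : (2 : F) ≠ 0) {v : Fin 3 → F} (hv : hm v v = 1) :
    ∃ w : Fin 3 → F, hm v w = 0 ∧ hm w w ≠ 0 := by
  have key : ∀ a b : Fin 3, a ≠ b → (∃ w : Fin 3 → F, hm v w = 0 ∧
      hm w w = v a * star (v a) + v b * star (v b)) := by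
    intro a b hab
    fin_cases a <;> fin_cases b <;> first | exact absurd rfl hab | skip
    · refine ⟨![star (v 1), -star (v 0), 0], ?_, ?_⟩
      · simp [hm, Fin.sum_univ_three]; ring
      · simp [hm, Fin.sum_univ_three]; ring
    · refine ⟨![star (v 2), 0, -star (v 0)], ?_, ?_⟩
      · simp [hm, Fin.sum_univ_three]; ring
      · simp [hm, Fin.sum_univ_three]; ring
    · refine ⟨![star (v 1), -star (v 0), 0], ?_, ?_⟩
      · simp [hm, Fin.sum_univ_three]; ring
      · simp [hm, Fin.sum_univ_three]; ring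
    · refine ⟨![0, star (v 2), -star (v 1)], ?_, ?_⟩
      · simp [hm, Fin.sum_univ_three]; ring
      · simp [hm, Fin.sum_univ_three]; ring
    · refine ⟨![star (v 2), 0, -star (v 0)], ?_, ?_⟩
      · simp [hm, Fin.sum_univ_three]; ring
      · simp [hm, Fin.sum_univ_three]; ring
    · refine ⟨![0, star (v 2), -star (v 1)], ?_, ?_⟩
      · simp [hm, Fin.sum_univ_three]; ring
      · simp [hm, Fin.sum_univ_three]; ring
  by_contra hcon
  push Not at hcon
  obtain ⟨w1, h11, h12⟩ := key 0 1 (by decide)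
  obtain ⟨w2, h21, h22⟩ := key 0 2 (by decide)
  obtain ⟨w3, h31, h32⟩ := key 1 2 (by decide)
  have e1 := hcon w1 h11
  have e2 := hcon w2 h21
  have e3 := hcon w3 h31
  rw [h12] at e1
  rw [h22] at e2
  rw [h32] at e3
  have hv' : v 0 * star (v 0) + v 1 * star (v 1) + v 2 * star (v 2) = 1 := by
    have := hv
    unfold hm at this
    rwa [Fin.sum_univ_three] at this
  have h5 : (2 : F) * 1 = 0 := by
    rw [← hv']
    linear_combination e1 + e2 + e3
  rw [mul_one] at h5
  exact h2 h5

end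

end Pool.Agent.L5helper63.UP
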