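import Pool.Agent.L5helper63.UP.Group

/-!
# Triangle-free sets of unit vectors
-/

set_option autoImplicit false
set_option linter.all false

namespace Pool.Agent.L5helper63.UP

open Finset Matrix

section

variable {F : Type} [Field F] [Fintype F] [DecidableEq F] [StarRing F]

noncomputable instance instFintypeUG : Fintype (Matrix.unitaryGroup (Fin 3) F) := Fintype.ofFinite _

open Classical in
/-- number of unitary matrices with a property -/
noncomputable def cnt (P : Matrix.unitaryGroup (Fin 3) F → Prop) : ℕ := (univ.filter P).card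

theorem cnt_right (C : Matrix.unitaryGroup (Fin 3) F) (P : Matrix.unitaryGroup (Fin 3) F → Prop) :
    cnt (fun M => P (M * C)) = cnt P := by
  classical
  unfold cnt
  refine Finset.card_nbij' (fun M => M * C) (fun M => M * C⁻¹) ?_ ?_ ?_ ?_
  · intro M hM
    simpa using hM
  · intro M hM
    simpa using hM
  · intro M hM
    simp
  · intro M hM
    simp

theorem cnt_left (C : Matrix.unitaryGroup (Fin 3) F) (P : Matrix.unitaryGroup (Fin 3) F → Prop) :
    cnt (fun M => P (C * M)) = cnt P := by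
  classical
  unfold cnt
  refine Finset.card_nbij' (fun M => C * M) (fun M => C⁻¹ * M) ?_ ?_ ?_ ?_
  · intro M hM
    simpa using hM
  · intro M hM
    simpa using hM
  · intro M hM
    simp
  · intro M hM
    simp

theorem cnt_congr {P Q : Matrix.unitaryGroup (Fin 3) F → Prop} (h : ∀ M, P M ↔ Q M) :
    cnt P = cnt Q := by
  have : P = Q := funext fun M => propext (h M)
  rw [this]

/-- columns of a product -/
theorem col_mul' (M C : Matrix.unitaryGroup (Fin 3) F) (j : Fin 3) :
    col (M * C).1 j = M.1 *ᵥ (col C.1 j) := rfl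

theorem exists_unitary (h2 : (2 : F) ≠ 0)
    (hn : ∀ t : F, t ≠ 0 → star t = t → ∃ l : F, l * star l = t) {v : Fin 3 → F}
    (hv : hm v v = 1) : ∃ M : Matrix.unitaryGroup (Fin 3) F, col M.1 0 = v := by
  obtain ⟨w, hvw, hww⟩ := exists_perp h2 hv
  obtain ⟨l, hl⟩ := hn (hm w w)⁻¹ (inv_ne_zero hww) (by rw [star_inv₀, ← hm_symm])
  have h1 : hm (l • w) (l • w) = 1 := by
    rw [hm_smul_left, hm_smul_right, ← mul_assoc, hl, inv_mul_cancel₀ hww]
  have h3 : hm v (l • w) = 0 := by rw [hm_smul_right, hvw, mul_zero]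
  obtain ⟨M, h4, -⟩ := exists_frame2 hv h1 h3
  exact ⟨M, h4⟩

theorem fib1 (h2 : (2 : F) ≠ 0)
    (hn : ∀ t : F, t ≠ 0 → star t = t → ∃ l : F, l * star l = t) {v : Fin 3 → F}
    (hv : hm v v = 1) : cnt (fun M : Matrix.unitaryGroup (Fin 3) F => col M.1 0 = v) =
      cnt (fun M : Matrix.unitaryGroup (Fin 3) F => col M.1 0 = col (1 : Matrix.unitaryGroup (Fin 3) F).1 0) := by
  obtain ⟨N, hN⟩ := exists_unitary h2 hn hv
  rw [← cnt_left N]
  refine cnt_congr fun M => ?_
  have h3 : v = N.1 *ᵥ col (1 : Matrix.unitaryGroup (Fin 3) F).1 0 := by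
    rw [← col_mul', mul_one, hN]
  rw [col_mul', h3]
  exact ⟨fun h => mulVec_inj N h, fun h => by rw [h]⟩

theorem fib2 {v w : Fin 3 → F} (hv : hm v v = 1) (hw : hm w w = 1) (hvw : hm v w = 0) :
    cnt (fun M : Matrix.unitaryGroup (Fin 3) F => col M.1 0 = v ∧ col M.1 1 = w) =
      cnt (fun M : Matrix.unitaryGroup (Fin 3) F =>
        col M.1 0 = col (1 : Matrix.unitaryGroup (Fin 3) F).1 0 ∧
        col M.1 1 = col (1 : Matrix.unitaryGroup (Fin 3) F).1 1) := by
  obtain ⟨N, hN, hN'⟩ := exists_frame2 hv hw hvw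
  rw [← cnt_left N]
  refine cnt_congr fun M => ?_
  have h3 : v = N.1 *ᵥ col (1 : Matrix.unitaryGroup (Fin 3) F).1 0 := by
    rw [← col_mul', mul_one, hN]
  have h4 : w = N.1 *ᵥ col (1 : Matrix.unitaryGroup (Fin 3) F).1 1 := by
    rw [← col_mul', mul_one, hN']
  rw [col_mul', col_mul', h3, h4]
  exact ⟨fun h => ⟨mulVec_inj N h.1, mulVec_inj N h.2⟩, fun h => by rw [h.1, h.2]; exact ⟨rfl, rfl⟩⟩

/-- sum over the first column -/
theorem cnt_col (h2 : (2 : F) ≠ 0)
    (hn : ∀ t : F, t ≠ 0 → star t = t → ∃ l : F, l * star l = t) (A : Finset (Fin 3 → F))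
    (hA : ∀ v ∈ A, hm v v = 1) :
    cnt (fun M : Matrix.unitaryGroup (Fin 3) F => col M.1 0 ∈ A) = A.card *
      cnt (fun M : Matrix.unitaryGroup (Fin 3) F =>
        col M.1 0 = col (1 : Matrix.unitaryGroup (Fin 3) F).1 0) := by
  classical
  have h : cnt (fun M : Matrix.unitaryGroup (Fin 3) F => col M.1 0 ∈ A) =
      ∑ v ∈ A, cnt (fun M : Matrix.unitaryGroup (Fin 3) F => col M.1 0 = v) := by
    unfold cnt
    rw [Finset.card_eq_sum_card_fiberwise (f := fun M : Matrix.unitaryGroup (Fin 3) F => col M.1 0)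
      (t := A) (fun M hM => by simpa using hM)]
    refine Finset.sum_congr rfl fun v hv => ?_
    congr 1
    ext M
    simp only [Finset.mem_filter, Finset.mem_univ, true_and]
    constructor
    · exact fun h => h.2
    · intro h
      exact ⟨h ▸ hv, h⟩
  rw [h, Finset.sum_congr rfl fun v hv => fib1 h2 hn (hA v hv), Finset.sum_const, smul_eq_mul]

/-- sum over the first two columns -/
theorem cnt_pair (A : Finset (Fin 3 → F)) (hA : ∀ v ∈ A, hm v v = 1) :
    cnt (fun M : Matrix.unitaryGroup (Fin 3) F => col M.1 0 ∈ A ∧ col M.1 1 ∈ A) = ep A *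
      cnt (fun M : Matrix.unitaryGroup (Fin 3) F =>
        col M.1 0 = col (1 : Matrix.unitaryGroup (Fin 3) F).1 0 ∧
        col M.1 1 = col (1 : Matrix.unitaryGroup (Fin 3) F).1 1) := by
  classical
  have h : cnt (fun M : Matrix.unitaryGroup (Fin 3) F => col M.1 0 ∈ A ∧ col M.1 1 ∈ A) =
      ∑ p ∈ (A ×ˢ A).filter (fun p => hm p.1 p.2 = 0),
        cnt (fun M : Matrix.unitaryGroup (Fin 3) F => col M.1 0 = p.1 ∧ col M.1 1 = p.2) := by
    unfold cnt
    rw [Finset.card_eq_sum_card_fiberwise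
      (f := fun M : Matrix.unitaryGroup (Fin 3) F => (col M.1 0, col M.1 1))
      (t := (A ×ˢ A).filter (fun p => hm p.1 p.2 = 0)) (fun M hM => by
        have h1 := gram M 0 1
        simp only [Finset.coe_filter, Finset.mem_univ, true_and, Set.mem_setOf_eq] at hM
        simp only [Finset.coe_filter, Finset.mem_product, Set.mem_setOf_eq]
        exact ⟨hM, by simpa using h1⟩)]
    refine Finset.sum_congr rfl fun p hp => ?_
    congr 1
    ext M
    simp only [Finset.mem_filter, Finset.mem_univ, true_and, Finset.mem_product] at hp ⊢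
    constructor
    · intro h
      exact ⟨congrArg Prod.fst h.2, congrArg Prod.snd h.2⟩
    · intro h
      exact ⟨⟨h.1 ▸ hp.1.1, h.2 ▸ hp.1.2⟩, Prod.ext h.1 h.2⟩
  rw [h, Finset.sum_congr rfl (fun p hp => by
    simp only [Finset.mem_filter, Finset.mem_product] at hp
    exact fib2 (hA p.1 hp.1.1) (hA p.2 hp.1.2) hp.2), Finset.sum_const, smul_eq_mul]
  rfl

end

end Pool.Agent.L5helper63.UP
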