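import Pool.Agent.L5helper63.UP.Main

/-!
# Triangle-free sets of unit vectors: the inequality
-/

set_option autoImplicit false
set_option linter.all false

namespace Pool.Agent.L5helper63.UP

open Finset Matrix

section

variable {F : Type} [Field F] [Fintype F] [DecidableEq F] [StarRing F]

open Classical in
/-- indicator of `A` with values in `ℕ` -/
noncomputable def ic (A : Finset (Fin 3 → F)) (v : Fin 3 → F) : ℕ := if v ∈ A then 1 else 0

/-- an odd number of the images of three vectors is in `A` -/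
def oddAt (A : Finset (Fin 3 → F)) (x y z : Fin 3 → F) (M : Matrix.unitaryGroup (Fin 3) F) : Prop :=
  (ic A (M.1 *ᵥ x) + ic A (M.1 *ᵥ y) + ic A (M.1 *ᵥ z)) % 2 = 1

theorem cnt_eq_sum (P : Matrix.unitaryGroup (Fin 3) F → Prop) [DecidablePred P] :
    cnt P = ∑ M : Matrix.unitaryGroup (Fin 3) F, if P M then 1 else 0 := by
  classical
  unfold cnt
  rw [Finset.card_filter]
  refine Finset.sum_congr rfl fun M _ => ?_
  congr

theorem cnt_all {P : Matrix.unitaryGroup (Fin 3) F → Prop} (h : ∀ M, P M) :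
    cnt P = Fintype.card (Matrix.unitaryGroup (Fin 3) F) := by
  classical
  unfold cnt
  rw [← Finset.card_univ]
  congr 1
  ext M
  simp only [Finset.mem_filter, Finset.mem_univ, true_and, iff_true]
  exact h M

/-- a unit vector in the place of the first column -/
theorem cnt_vec (h2 : (2 : F) ≠ 0)
    (hn : ∀ t : F, t ≠ 0 → star t = t → ∃ l : F, l * star l = t) (A : Finset (Fin 3 → F))
    {x : Fin 3 → F} (hx : hm x x = 1) :
    cnt (fun M : Matrix.unitaryGroup (Fin 3) F => M.1 *ᵥ x ∈ A) =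
      cnt (fun M : Matrix.unitaryGroup (Fin 3) F => col M.1 0 ∈ A) := by
  obtain ⟨C, hC⟩ := exists_unitary h2 hn hx
  rw [← cnt_right C (fun M => col M.1 0 ∈ A)]
  refine cnt_congr fun M => ?_
  rw [col_mul', hC]

theorem cnt_vec2 (A : Finset (Fin 3 → F)) {x y : Fin 3 → F} (hx : hm x x = 1) (hy : hm y y = 1)
    (hxy : hm x y = 0) :
    cnt (fun M : Matrix.unitaryGroup (Fin 3) F => M.1 *ᵥ x ∈ A ∧ M.1 *ᵥ y ∈ A) =
      cnt (fun M : Matrix.unitaryGroup (Fin 3) F => col M.1 0 ∈ A ∧ col M.1 1 ∈ A) := by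
  obtain ⟨C, hC, hC'⟩ := exists_frame2 hx hy hxy
  rw [← cnt_right C (fun M => col M.1 0 ∈ A ∧ col M.1 1 ∈ A)]
  refine cnt_congr fun M => ?_
  rw [col_mul', col_mul', hC, hC']

/-- the number of matrices which map a frame to a frame with an odd number of members in `A` -/
theorem odd_count (h2 : (2 : F) ≠ 0)
    (hn : ∀ t : F, t ≠ 0 → star t = t → ∃ l : F, l * star l = t) (A : Finset (Fin 3 → F))
    (hT : ∀ u ∈ A, ∀ v ∈ A, ∀ w ∈ A, hm u v = 0 → hm v w = 0 → hm u w = 0 → False)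
    {x y z : Fin 3 → F} (hx : hm x x = 1) (hy : hm y y = 1) (hz : hm z z = 1)
    (hxy : hm x y = 0) (hyz : hm y z = 0) (hxz : hm x z = 0) :
    cnt (oddAt A x y z) +
      6 * cnt (fun M : Matrix.unitaryGroup (Fin 3) F => col M.1 0 ∈ A ∧ col M.1 1 ∈ A) =
      3 * cnt (fun M : Matrix.unitaryGroup (Fin 3) F => col M.1 0 ∈ A) := by
  classical
  have e1 := cnt_vec h2 hn A hx
  have e2 := cnt_vec h2 hn A hy
  have e3 := cnt_vec h2 hn A hz
  have f1 := cnt_vec2 A hx hy hxy
  have f2 := cnt_vec2 A hy hz hyz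
  have f3 := cnt_vec2 A hx hz hxz
  have key : cnt (oddAt A x y z) +
      2 * (cnt (fun M : Matrix.unitaryGroup (Fin 3) F => M.1 *ᵥ x ∈ A ∧ M.1 *ᵥ y ∈ A) +
        cnt (fun M : Matrix.unitaryGroup (Fin 3) F => M.1 *ᵥ y ∈ A ∧ M.1 *ᵥ z ∈ A) +
        cnt (fun M : Matrix.unitaryGroup (Fin 3) F => M.1 *ᵥ x ∈ A ∧ M.1 *ᵥ z ∈ A)) =
      cnt (fun M : Matrix.unitaryGroup (Fin 3) F => M.1 *ᵥ x ∈ A) +
      cnt (fun M : Matrix.unitaryGroup (Fin 3) F => M.1 *ᵥ y ∈ A) +
      cnt (fun M : Matrix.unitaryGroup (Fin 3) F => M.1 *ᵥ z ∈ A) := by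
    rw [cnt_eq_sum, cnt_eq_sum, cnt_eq_sum, cnt_eq_sum, cnt_eq_sum, cnt_eq_sum, cnt_eq_sum,
      ← Finset.sum_add_distrib, ← Finset.sum_add_distrib, ← Finset.sum_add_distrib,
      ← Finset.sum_add_distrib, Finset.mul_sum, ← Finset.sum_add_distrib]
    refine Finset.sum_congr rfl fun M _ => ?_
    unfold oddAt ic
    have hall : ¬ (M.1 *ᵥ x ∈ A ∧ M.1 *ᵥ y ∈ A ∧ M.1 *ᵥ z ∈ A) := fun h =>
      hT _ h.1 _ h.2.1 _ h.2.2 (by rw [hm_mulVec, hxy]) (by rw [hm_mulVec, hyz])
        (by rw [hm_mulVec, hxz])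
    by_cases h1 : M.1 *ᵥ x ∈ A <;> by_cases h3 : M.1 *ᵥ y ∈ A <;> by_cases h4 : M.1 *ᵥ z ∈ A <;>
      simp only [h1, h3, h4, if_true, if_false, and_true, and_false, true_and, false_and,
        not_true_eq_false] at hall ⊢ <;> norm_num
  rw [e1, e2, e3, f1, f2, f3] at key
  omega

/-- **The inequality from the configuration.** -/
theorem config_bound (h2 : (2 : F) ≠ 0)
    (hn : ∀ t : F, t ≠ 0 → star t = t → ∃ l : F, l * star l = t) (A : Finset (Fin 3 → F))
    (hT : ∀ u ∈ A, ∀ v ∈ A, ∀ w ∈ A, hm u v = 0 → hm v w = 0 → hm u w = 0 → False)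
    (c : Fin 31 → (Fin 3 → F)) (hc : ∀ k, hm (c k) (c k) = 1)
    (htr : ∀ t ∈ tr, hm (c t.1) (c t.2.1) = 0 ∧ hm (c t.2.1) (c t.2.2) = 0 ∧
      hm (c t.1) (c t.2.2) = 0) :
    cnt (fun M : Matrix.unitaryGroup (Fin 3) F => col M.1 0 ∈ A) +
      126 * cnt (fun M : Matrix.unitaryGroup (Fin 3) F => col M.1 0 ∈ A ∧ col M.1 1 ∈ A) ≤
      63 * cnt (fun M : Matrix.unitaryGroup (Fin 3) F => col M.1 0 ∈ A) := by
  classical
  have key : cnt (fun M : Matrix.unitaryGroup (Fin 3) F => M.1 *ᵥ (c 30) ∈ A) ≤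
      (tr.map fun t => cnt (oddAt A (c t.1) (c t.2.1) (c t.2.2))).sum := by
    have hsum : (tr.map fun t => cnt (oddAt A (c t.1) (c t.2.1) (c t.2.2))).sum =
        ∑ M : Matrix.unitaryGroup (Fin 3) F,
          (tr.map fun t => if oddAt A (c t.1) (c t.2.1) (c t.2.2) M then 1 else 0).sum := by
      have : ∀ L : List (Fin 31 × Fin 31 × Fin 31),
          (L.map fun t => cnt (oddAt A (c t.1) (c t.2.1) (c t.2.2))).sum =
          ∑ M : Matrix.unitaryGroup (Fin 3) F,
            (L.map fun t => if oddAt A (c t.1) (c t.2.1) (c t.2.2) M then 1 else 0).sum := by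
        intro L
        induction L with
        | nil => simp
        | cons t L ih =>
          simp only [List.map_cons, List.sum_cons]
          rw [ih, Finset.sum_add_distrib, cnt_eq_sum]
      exact this tr
    rw [hsum, cnt_eq_sum]
    refine Finset.sum_le_sum fun M _ => ?_
    split_ifs with hM
    · -- some frame is odd
      by_contra hcon
      have h0 : (tr.map fun t => if oddAt A (c t.1) (c t.2.1) (c t.2.2) M then 1 else 0).sum = 0 := by
        omega
      have h1 : ∀ t ∈ tr, ¬ oddAt A (c t.1) (c t.2.1) (c t.2.2) M := by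
        intro t ht hodd
        have h3 := List.sum_eq_zero_iff.1 h0 1 (List.mem_map.2 ⟨t, ht, by rw [if_pos hodd]⟩)
        exact one_ne_zero h3
      let g : Fin 31 → ZMod 2 := fun k => (ic A (M.1 *ᵥ (c k)) : ZMod 2)
      have h4 : (tr.map fun t => g t.1 + g t.2.1 + g t.2.2).sum = 0 := by
        apply List.sum_eq_zero
        intro a ha
        obtain ⟨t, ht, rfl⟩ := List.mem_map.1 ha
        have h5 := h1 t ht
        unfold oddAt at h5
        have h6 : (ic A (M.1 *ᵥ c t.1) + ic A (M.1 *ᵥ c t.2.1) + ic A (M.1 *ᵥ c t.2.2)) % 2 = 0 := by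
          omega
        have h7 : ((ic A (M.1 *ᵥ c t.1) + ic A (M.1 *ᵥ c t.2.1) + ic A (M.1 *ᵥ c t.2.2) : ℕ) :
            ZMod 2) = 0 := by
          rw [ZMod.natCast_eq_zero_iff]
          exact Nat.dvd_of_mod_eq_zero h6
        simpa [g] using h7
      rw [tr_sum] at h4
      have h8 : g 30 = 1 := by
        simp only [g, ic, if_pos hM, Nat.cast_one]
      rw [h8] at h4
      exact one_ne_zero h4
    · exact Nat.zero_le _
  have h3 : ∀ t ∈ tr, cnt (oddAt A (c t.1) (c t.2.1) (c t.2.2)) +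
      6 * cnt (fun M : Matrix.unitaryGroup (Fin 3) F => col M.1 0 ∈ A ∧ col M.1 1 ∈ A) =
      3 * cnt (fun M : Matrix.unitaryGroup (Fin 3) F => col M.1 0 ∈ A) := by
    intro t ht
    obtain ⟨h4, h5, h6⟩ := htr t ht
    exact odd_count h2 hn A hT (hc _) (hc _) (hc _) h4 h5 h6
  have h4 : ∀ L : List (Fin 31 × Fin 31 × Fin 31), (∀ t ∈ L, t ∈ tr) →
      (L.map fun t => cnt (oddAt A (c t.1) (c t.2.1) (c t.2.2))).sum + L.length *
        (6 * cnt (fun M : Matrix.unitaryGroup (Fin 3) F => col M.1 0 ∈ A ∧ col M.1 1 ∈ A)) =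
      L.length * (3 * cnt (fun M : Matrix.unitaryGroup (Fin 3) F => col M.1 0 ∈ A)) := by
    intro L
    induction L with
    | nil => intro _; simp
    | cons t L ih =>
      intro hL
      have h5 := ih fun s hs => hL s (List.mem_cons_of_mem t hs)
      have h6 := h3 t (hL t List.mem_cons_self)
      simp only [List.map_cons, List.sum_cons, List.length_cons]
      rw [add_mul, add_mul, one_mul, one_mul]
      omega
  have h5 := h4 tr fun t ht => ht
  have h6 : tr.length = 21 := rfl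
  rw [h6] at h5
  rw [cnt_vec h2 hn A (hc 30)] at key
  omega

theorem part_main (h1 : St_NORM1) : St_MAIN := by
  intro F _ _ _ _ q hS hchar hs A hA hT
  classical
  have h2 := hS.h2
  have hn : ∀ t : F, t ≠ 0 → star t = t → ∃ l : F, l * star l = t := by
    intro t ht hst
    have h3 := (h1 F q hS).2 t ht hst
    have h4 : (univ.filter fun l : F => l * star l = t).Nonempty := by
      rw [← Finset.card_pos, h3]
      omega
    obtain ⟨l, hl⟩ := h4
    exact ⟨l, (Finset.mem_filter.1 hl).2⟩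
  obtain ⟨c, hc, htr⟩ := exists_config hs
  have hb := config_bound h2 hn A hT c hc htr
  have hU : ∀ v ∈ uv F, hm v v = 1 := fun v hv => (Finset.mem_filter.1 hv).2
  have a1 := cnt_col h2 hn A hA
  have a2 := cnt_col h2 hn (uv F) hU
  have b1 := cnt_pair A hA
  have b2 := cnt_pair (uv F) hU
  have hall : ∀ j, ∀ M : Matrix.unitaryGroup (Fin 3) F, col M.1 j ∈ uv F := by
    intro j M
    refine Finset.mem_filter.2 ⟨Finset.mem_univ _, ?_⟩
    rw [gram, if_pos rfl]
  have g1 : cnt (fun M : Matrix.unitaryGroup (Fin 3) F => col M.1 0 ∈ uv F) =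
      Fintype.card (Matrix.unitaryGroup (Fin 3) F) := by
    exact cnt_all fun M => hall 0 M
  have g2 : cnt (fun M : Matrix.unitaryGroup (Fin 3) F => col M.1 0 ∈ uv F ∧ col M.1 1 ∈ uv F) =
      Fintype.card (Matrix.unitaryGroup (Fin 3) F) := by
    exact cnt_all fun M => ⟨hall 0 M, hall 1 M⟩
  rw [g1] at a2
  rw [g2] at b2
  have hg : 0 < Fintype.card (Matrix.unitaryGroup (Fin 3) F) := Fintype.card_pos
  rw [a1, b1] at hb
  set s1 := cnt (fun M : Matrix.unitaryGroup (Fin 3) F =>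
        col M.1 0 = col (1 : Matrix.unitaryGroup (Fin 3) F).1 0) with hs1
  set s2 := cnt (fun M : Matrix.unitaryGroup (Fin 3) F =>
        col M.1 0 = col (1 : Matrix.unitaryGroup (Fin 3) F).1 0 ∧
        col M.1 1 = col (1 : Matrix.unitaryGroup (Fin 3) F).1 1) with hs2
  set g := Fintype.card (Matrix.unitaryGroup (Fin 3) F)
  have hb' : 126 * (ep A * s2) ≤ 62 * (A.card * s1) := by omega
  have hfin : g * (126 * (ep A * (uv F).card)) ≤ g * (62 * (A.card * ep (uv F))) := by
    calc g * (126 * (ep A * (uv F).card)) = (126 * (ep A * s2)) * ((uv F).card * ep (uv F)) := by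
          rw [b2]; ring
      _ ≤ (62 * (A.card * s1)) * ((uv F).card * ep (uv F)) := Nat.mul_le_mul_right _ hb'
      _ = g * (62 * (A.card * ep (uv F))) := by rw [a2]; ring
  exact Nat.le_of_mul_le_mul_left hfin hg

end

end Pool.Agent.L5helper63.UP
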