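import Pool.Agent.L5helper63.UP.Defs

/-!
# The fibres of the norm
-/

set_option autoImplicit false
set_option linter.all false

namespace Pool.Agent.L5helper63.UP

open Finset

section

variable {F : Type} [Field F] [Fintype F] [DecidableEq F] [StarRing F] {q : ℕ}

theorem fib_le (hS : Setup F q) (t : F) : (univ.filter fun l : F => l * star l = t).card ≤ q + 1 := by
  classical
  have h : (univ.filter fun l : F => l * star l = t) ⊆ (Polynomial.nthRoots (q + 1) t).toFinset := by
    intro l hl
    rw [Finset.mem_filter] at hl
    rw [Multiset.mem_toFinset, Polynomial.mem_nthRoots (Nat.succ_pos q), pow_succ, mul_comm,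
      ← hS.hstar]
    exact hl.2
  exact (Finset.card_le_card h).trans ((Multiset.toFinset_card_le _).trans
    (Polynomial.card_nthRoots _ _))

theorem fib_eq (hS : Setup F q) {t : F} (ht : t ≠ 0) (hst : star t = t) :
    (univ.filter fun l : F => l * star l = t).card = q + 1 := by
  classical
  set N : Finset F := univ.filter fun l => l ≠ 0 with hN
  set B : Finset F := univ.filter fun t => t ≠ 0 ∧ star t = t with hB
  have hNc : N.card = q ^ 2 - 1 := by
    have h1 : N = univ.erase 0 := by
      ext l
      simp [hN]
    rw [h1, Finset.card_erase_of_mem (Finset.mem_univ _), Finset.card_univ, hS.hcard]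
  have hq := hS.hq
  have hBc : B.card ≤ q - 1 := by
    have h : B ⊆ (Polynomial.nthRoots (q - 1) (1 : F)).toFinset := by
      intro l hl
      rw [hB, Finset.mem_filter] at hl
      rw [Multiset.mem_toFinset, Polynomial.mem_nthRoots (by omega)]
      have h1 := hl.2.2
      rw [hS.hstar] at h1
      have h2 : l ^ (q - 1) * l = 1 * l := by
        rw [← pow_succ, Nat.sub_add_cancel (by omega), h1, one_mul]
      exact mul_right_cancel₀ hl.2.1 h2
    exact (Finset.card_le_card h).trans ((Multiset.toFinset_card_le _).trans
      (Polynomial.card_nthRoots _ _))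
  have hmap : ∀ l ∈ N, l * star l ∈ B := by
    intro l hl
    rw [hN, Finset.mem_filter] at hl
    rw [hB, Finset.mem_filter]
    refine ⟨Finset.mem_univ _, mul_ne_zero hl.2 ?_, ?_⟩
    · rw [hS.hstar]
      exact pow_ne_zero _ hl.2
    · rw [star_mul', star_star, mul_comm]
  have hsum := Finset.card_eq_sum_card_fiberwise (f := fun l : F => l * star l) (s := N) (t := B)
    hmap
  have hfib : ∀ b ∈ B, (N.filter fun l => l * star l = b).card =
      (univ.filter fun l : F => l * star l = b).card := by
    intro b hb
    congr 1
    ext l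
    simp only [hN, Finset.mem_filter, Finset.mem_univ, true_and, and_iff_right_iff_imp]
    rintro h rfl
    rw [hB, Finset.mem_filter] at hb
    apply hb.2.1
    rw [← h, zero_mul]
  rw [Finset.sum_congr rfl hfib] at hsum
  have htB : t ∈ B := by
    rw [hB, Finset.mem_filter]
    exact ⟨Finset.mem_univ _, ht, hst⟩
  refine le_antisymm (fib_le hS t) ?_
  by_contra hcon
  push Not at hcon
  have hlt : ∑ b ∈ B, (univ.filter fun l : F => l * star l = b).card < ∑ b ∈ B, (q + 1) :=
    Finset.sum_lt_sum (fun b _ => fib_le hS b) ⟨t, htB, hcon⟩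
  rw [← hsum, hNc, Finset.sum_const, smul_eq_mul] at hlt
  have h3 : B.card * (q + 1) ≤ (q - 1) * (q + 1) := Nat.mul_le_mul_right _ hBc
  have h4 : (q - 1) * (q + 1) = q ^ 2 - 1 := by
    obtain ⟨k, rfl⟩ : ∃ k, q = k + 1 := ⟨q - 1, by omega⟩
    rw [Nat.add_sub_cancel]
    have : (k + 1) ^ 2 = k * (k + 1 + 1) + 1 := by ring
    omega
  omega

end

theorem part_norm1 : St_NORM1 := fun F _ _ _ _ q hS => ⟨fib_le hS, fun t ht hst => fib_eq hS ht hst⟩

theorem part_norm2 : St_NORM2 := by
  intro F _ _ _ _ q hS t
  classical
  have h := Finset.card_le_mul_card_image_of_maps_to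
    (f := fun v : Fin 3 → F => (v 0, v 1)) (s := univ.filter fun v : Fin 3 → F => hm v v = t)
    (t := (univ : Finset (F × F))) (fun v _ => Finset.mem_univ _) (q + 1) (by
      intro b _
      have hle := fib_le hS (t - b.1 * star b.1 - b.2 * star b.2)
      refine le_trans (Finset.card_le_card_of_injOn (fun v => v 2) ?_ ?_) hle
      · intro v hv
        simp only [Finset.coe_filter, Finset.mem_filter, Finset.mem_univ, true_and,
          Set.mem_setOf_eq] at hv ⊢
        obtain ⟨h1, h2⟩ := hv
        rw [← h2, ← h1]
        unfold hm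
        rw [Fin.sum_univ_three]
        ring
      · intro v hv w hw hvw
        simp only [Finset.coe_filter, Finset.mem_filter, Finset.mem_univ, true_and,
          Set.mem_setOf_eq] at hv hw
        have h1 : (v 0, v 1) = (w 0, w 1) := hv.2.trans hw.2.symm
        have h2 : v 0 = w 0 := congrArg Prod.fst h1
        have h3 : v 1 = w 1 := congrArg Prod.snd h1
        funext i
        fin_cases i
        · exact h2
        · exact h3
        · exact hvw)
  refine h.trans ?_
  rw [Finset.card_univ, Fintype.card_prod, hS.hcard]
  apply le_of_eq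
  ring

end Pool.Agent.L5helper63.UP
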